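import Pool.Agent.Helper11.PC.Defs

/-! Packet FOX of PROJECT PC (MP_1f931d_al, for helper11): existence of Fox coefficients. -/

set_option autoImplicit false

namespace Pool.Agent.Helper3.PC

universe u

open MonoidAlgebra Pool.Agent.Helper11.PC

theorem der_one {G : Type u} [Group G] {M : Type u} [AddCommGroup M] [Module (MonoidAlgebra ℚ G) M]
    {δ : G → M} (h : ∀ g h, δ (g * h) = δ g + gl g • δ h) : δ 1 = 0 := by
  have h1 := h 1 1
  have h2 : gl (1 : G) = 1 := rfl
  rw [mul_one, h2, one_smul] at h1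
  exact left_eq_add.1 h1

theorem gl_mul_gl {G : Type u} [Group G] (a b : G) : gl a * gl b = gl (a * b) := by
  simp [gl, MonoidAlgebra.single_mul_single]

theorem supp_gl_mul {G : Type u} [Group G] (H : Subgroup G) {a : G} (ha : a ∈ H)
    {W : MonoidAlgebra ℚ G} (hW : ∀ x ∈ W.coeff.support, x ∈ H) :
    ∀ x ∈ (gl a * W).coeff.support, x ∈ H := by
  classical
  intro x hx
  have h1 := MonoidAlgebra.support_coeff_single_mul_subset W (1 : ℚ) a hx
  rw [Finset.mem_image] at h1
  obtain ⟨y, hy, rfl⟩ := h1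
  exact H.mul_mem ha (hW y hy)

theorem supp_add {G : Type u} [Group G] (H : Subgroup G) {V W : MonoidAlgebra ℚ G}
    (hV : ∀ x ∈ V.coeff.support, x ∈ H) (hW : ∀ x ∈ W.coeff.support, x ∈ H) :
    ∀ x ∈ (V + W).coeff.support, x ∈ H := by
  classical
  intro x hx
  rw [MonoidAlgebra.coeff_add] at hx
  rcases Finset.mem_union.1 (Finsupp.support_add hx) with h | h
  · exact hV x h
  · exact hW x h

theorem supp_neg {G : Type u} [Group G] (H : Subgroup G) {V : MonoidAlgebra ℚ G}
    (hV : ∀ x ∈ V.coeff.support, x ∈ H) : ∀ x ∈ (-V).coeff.support, x ∈ H := by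
  intro x hx
  refine hV x ?_
  rw [Finsupp.mem_support_iff] at hx ⊢
  intro h0
  apply hx
  have : (-V).coeff x = - V.coeff x := rfl
  rw [this, h0, neg_zero]

theorem fox {G : Type u} [Group G] {n : ℕ} (b : Fin n → G) (c : G)
    (hc : c ∈ Subgroup.closure (Set.range b)) :
    ∃ W : Fin n → MonoidAlgebra ℚ G, IsFox b c W ∧
      ∀ j, ∀ x ∈ (W j).coeff.support, x ∈ Subgroup.closure (Set.range b) := by
  induction hc using Subgroup.closure_induction with
  | mem x hx =>
    obtain ⟨j, rfl⟩ := hx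
    refine ⟨Pi.single j 1, ?_, ?_⟩
    · intro M _ _ δ _
      rw [Finset.sum_eq_single j]
      · rw [Pi.single_eq_same, one_smul]
      · intro i _ hi
        rw [Pi.single_eq_of_ne hi, zero_smul]
      · intro h
        exact absurd (Finset.mem_univ j) h
    · intro i x hx
      by_cases hi : i = j
      · subst hi
        rw [Pi.single_eq_same] at hx
        have h1 := MonoidAlgebra.support_coeff_one_subset hx
        rw [Finset.mem_one] at h1
        rw [h1]
        exact Subgroup.one_mem _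
      · rw [Pi.single_eq_of_ne hi] at hx
        simp at hx
  | one =>
    refine ⟨0, ?_, ?_⟩
    · intro M _ _ δ hδ
      rw [der_one hδ]
      simp
    · intro i x hx
      simp at hx
  | mul x y hx hy ihx ihy =>
    obtain ⟨V, hV, hV'⟩ := ihx
    obtain ⟨W, hW, hW'⟩ := ihy
    refine ⟨fun j => V j + gl x * W j, ?_, ?_⟩
    · intro M _ _ δ hδ
      rw [hδ, hV M δ hδ, hW M δ hδ, Finset.smul_sum, ← Finset.sum_add_distrib]
      exact Finset.sum_congr rfl fun j _ => by rw [add_smul, mul_smul]
    · intro j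
      exact supp_add _ (hV' j) (supp_gl_mul _ hx (hW' j))
  | inv x hx ihx =>
    obtain ⟨V, hV, hV'⟩ := ihx
    refine ⟨fun j => -(gl x⁻¹ * V j), ?_, ?_⟩
    · intro M _ _ δ hδ
      have h1 := hδ x⁻¹ x
      rw [inv_mul_cancel, der_one hδ] at h1
      have h2 : δ x⁻¹ = -(gl x⁻¹ • δ x) := eq_neg_of_add_eq_zero_left h1.symm
      rw [h2, hV M δ hδ, Finset.smul_sum, ← Finset.sum_neg_distrib]
      exact Finset.sum_congr rfl fun j _ => by rw [neg_smul, mul_smul]
    · intro j
      exact supp_neg _ (supp_gl_mul _ (Subgroup.inv_mem _ hx) (hV' j))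

end Pool.Agent.Helper3.PC
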